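import Pool.Agent.Helper51.LPS.St

set_option autoImplicit false

namespace Pool.Agent.Helper16.LPS

open MeasureTheory Pool.Helper51.PSB Pool.Helper51.LPS

theorem hSec : StSec := by
  intro n K e d t hd he
  have hsub : K ∩ {x : EuclideanSpace ℝ (Fin n) | (inner ℝ x e : ℝ) = t} ⊆
      (IsometryEquiv.addRight (t • e)) ''
        ((fun x : EuclideanSpace ℝ (Fin n) => x - (inner ℝ x e : ℝ) • e) '' K) := by
    rintro x ⟨hxK, hx⟩
    refine ⟨x - (inner ℝ x e : ℝ) • e, ⟨x, hxK, rfl⟩, ?_⟩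
    have hx' : (inner ℝ x e : ℝ) = t := hx
    rw [IsometryEquiv.addRight_apply, hx', sub_add_cancel]
  refine (measure_mono hsub).trans (le_of_eq ?_)
  rw [IsometryEquiv.hausdorffMeasure_image]

end Pool.Agent.Helper16.LPS
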